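import Pool.Agent.H.MP_60620c_an.C

namespace Pool.Agent.H.MP_ec7c5f_an

open MeasureTheory Set Pool.Agent.H.MP_60620c_an
open scoped ENNReal

lemma T_cover (n : ℕ) (w : Om n) : ∀ t ∈ Icc (0 : ℝ) 1, ∃ a ∈ T n w, t ∈ Icc a.1 (a.1 + 1 / 3 ^ n) := by
  classical
  induction n with
  | zero => intro t ht; simpa [T] using ht
  | succ n ih =>
    intro t ht
    have e : (1 : ℝ) / 3 ^ (n + 1) = 1 / 3 ^ n / 3 := by rw [pow_succ]; field_simp
    have key : ∀ (d : ℝ) (r : Bool) (u : Om n), 3 * t - d ∈ Icc (0 : ℝ) 1 →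
        ∃ a ∈ (T n u).image (g d r), t ∈ Icc a.1 (a.1 + 1 / 3 ^ (n + 1)) := by
      intro d r u h
      obtain ⟨a, ha, h1, h2⟩ := ih u _ h
      refine ⟨_, Finset.mem_image_of_mem _ ha, ?_, ?_⟩
      · simp only [g]; linarith
      · simp only [g, e]; linarith
    simp only [T, Finset.mem_union, or_and_right, exists_or]
    by_cases h1 : t ≤ 1 / 3
    · exact Or.inl (Or.inl (key _ _ _ ⟨by linarith [ht.1], by linarith⟩))
    by_cases h2 : t ≤ 2 / 3
    · exact Or.inl (Or.inr (key _ _ _ ⟨by linarith, by linarith⟩))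
    · exact Or.inr (key _ _ _ ⟨by linarith, by linarith [ht.2]⟩)

open Classical in
noncomputable def kf (α β η : ℝ) (n : ℕ) (w : Om n) : Finset Bx :=
  (T n w).image fun a => ⟨α + η * a.1, 0, β + 4 * η * a.2, η / 3 ^ n⟩

lemma kak (α β : ℝ) {η ε : ℝ} (hη : 0 < η) (hε : 0 < ε) : ∃ K : Set (ℝ × ℝ), MeasurableSet K ∧
    volume K ≤ ENNReal.ofReal ε ∧
    ∀ a ∈ Icc α (α + η), ∃ b ∈ Icc β (β + 4 * η), ∀ x ∈ Icc (1 : ℝ) 2, (x, b + a * x) ∈ K := by
  classical
  obtain ⟨n, hn⟩ := exists_nat_gt (40 * η / ε)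
  have p : (0 : ℝ) < n := lt_trans (by positivity) hn
  have n0 : 0 < n := by exact_mod_cast p
  have q : (0 : ℝ) < Fintype.card (Om n) := by exact_mod_cast Fintype.card_pos
  have k : ∑ w, volume (U 2 (kf α β η n w) ∩ st 1 2) ≤ ENNReal.ofReal (Fintype.card (Om n) * ε) := by
    simp only [vol_st (U_meas _ _)]
    rw [← lintegral_finsetSum _ fun w _ => measurable_measure_prodMk_left (U_meas _ _)]
    refine (setLIntegral_mono' (g := fun _ => ENNReal.ofReal (Fintype.card (Om n) * ε))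
      measurableSet_Icc fun x hx => ?_).trans (by simp; norm_num)
    have x0 : 0 < x := by linarith [hx.1]
    have v1 : 2 ≤ 4 / x := by rw [le_div_iff₀ x0]; linarith [hx.2]
    have v2 : 4 / x ≤ 4 := by rw [div_le_iff₀ x0]; linarith [hx.1]
    set v := 4 / x with hv
    have one : ∀ w, volume (Prod.mk x ⁻¹' U 2 (kf α β η n w)) ≤
        ENNReal.ofReal (η * x) * volume (Cov (Icc 0 (1 + v)) v n w) := by
      intro w
      have := aff (a := 1 / (η * x)) (by positivity) (-(α * x) - β) (Cov (Icc 0 (1 + v)) v n w)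
      rw [inv_div, div_one, abs_of_pos (by positivity)] at this
      rw [← this]
      refine measure_mono fun y hy => ?_
      simp only [U, kf, mem_preimage, mem_iUnion, Finset.mem_image, exists_prop,
        exists_exists_and_eq_and, tube, mem_ofPred_eq] at hy
      obtain ⟨a, ha, h1, h2⟩ := hy
      refine ⟨a, ha, ?_⟩
      have e : 3 ^ n * (1 / (η * x) * (y + (-(α * x) - β)) - a.1 - v * a.2) =
          (y - (α + η * a.1) * x - (β + 4 * η * a.2)) / (η / 3 ^ n * x) := by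
        rw [hv]; field_simp; ring
      have z : 0 < η / 3 ^ n := by positivity
      rw [e]
      refine ⟨by positivity, ?_⟩
      rw [div_le_iff₀ (by positivity)]
      nlinarith [mul_pos z x0, mul_le_mul_of_nonneg_left hx.1 z.le]
    refine (Finset.sum_le_sum fun w _ => one w).trans ?_
    rw [← Finset.mul_sum, sum_vol (by linarith) subset_rfl, ← ENNReal.ofReal_mul (by positivity)]
    refine ENNReal.ofReal_le_ofReal ?_
    have u := upper (v := v) (by linarith) n0
    have u2 : 4 * (1 + v) / n ≤ 20 / n := by gcongr; linarith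
    have u3 : η * 2 * (20 / n) ≤ ε := by
      rw [div_lt_iff₀ hε] at hn
      rw [mul_div_assoc', div_le_iff₀ p]; linarith
    calc _ ≤ η * 2 * (Fintype.card (Om n) * (20 / n)) := by
          gcongr
          · exact mul_nonneg q.le (av_nonneg fun _ => measureReal_nonneg)
          · exact hx.2
          · linarith
      _ = Fintype.card (Om n) * (η * 2 * (20 / n)) := by ring
      _ ≤ _ := by gcongr
  obtain ⟨w, hw⟩ := av_ex fun w => volume.real (U 2 (kf α β η n w) ∩ st 1 2)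
  refine ⟨U 2 (kf α β η n w) ∩ st 1 2, (U_meas _ _).inter (st_meas _ _), ?_, fun a ha => ?_⟩
  · rw [← ofReal_measureReal (U_fin _ _ _ _)]
    refine ENNReal.ofReal_le_ofReal (hw.trans ?_)
    rw [av, div_le_iff₀ q, mul_comm]
    simp only [Measure.real]
    rw [← ENNReal.toReal_sum fun w _ => U_fin _ _ _ _]
    exact ENNReal.toReal_le_of_le_ofReal (by positivity) k
  · obtain ⟨c, hc, h1, h2⟩ := T_cover n w ((a - α) / η)
      ⟨div_nonneg (by linarith [ha.1]) hη.le, by rw [div_le_one hη]; linarith [ha.2]⟩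
    obtain ⟨s1, s2⟩ := T_slope hc
    have z : (0 : ℝ) < 1 / 3 ^ n := by positivity
    rw [le_div_iff₀ hη] at h1
    rw [div_le_iff₀ hη] at h2
    refine ⟨β + 4 * η * c.2, ⟨by nlinarith, by nlinarith⟩, fun x hx => ⟨?_, hx, trivial⟩⟩
    refine mem_iUnion₂.2 ⟨_, Finset.mem_image_of_mem _ hc, ?_, ?_⟩
    · simp only; nlinarith [hx.1]
    · have : η / 3 ^ n = 1 / 3 ^ n * η := by ring
      simp only [this]; nlinarith [hx.1, hx.2, mul_pos z hη]

theorem block : ∃ E : Set (ℝ × ℝ), MeasurableSet E ∧ 0 < volume E ∧ volume E < ⊤ ∧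
    ∀ (s t : ℝ) (a b : ℝ → ℝ), s ≤ t → ContinuousOn a (Icc s t) → ContinuousOn b (Icc s t) →
      (a s ≠ a t ∨ b s ≠ b t) → ∃ r ∈ Icc s t, ∃ X : ℝ, ∀ x ∈ Icc X (X + 1), (x, b r + a r * x) ∈ E := by
  have ex : ∀ i : ℕ × ℚ × ℚ, ∃ K : Set (ℝ × ℝ), MeasurableSet K ∧
      volume K ≤ ENNReal.ofReal (1 / 2 ^ Encodable.encode i) ∧
      ∀ a ∈ Icc (i.2.1 : ℝ) (i.2.1 + 1 / (i.1 + 1)), ∃ b ∈ Icc (i.2.2 : ℝ) (i.2.2 + 4 * (1 / (i.1 + 1))),
        ∀ x ∈ Icc (1 : ℝ) 2, (x, b + a * x) ∈ K := fun i =>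
    kak _ _ (by positivity) (by positivity)
  choose K K1 K2 K3 using ex
  set X : ℕ × ℚ × ℚ → ℝ := fun i => 2 * ((i.1 : ℝ) + 1) ^ 2 * 2 ^ Encodable.encode i with hX
  set B : ℕ × ℚ × ℚ → Set (ℝ × ℝ) := fun i => {p : ℝ × ℝ | p.2 - i.2.1 * p.1 ∈
    Icc (-((i.1 + 1) / X i)) ((i.1 + 1) / X i)} ∩ st (X i) (X i + 1) with hB
  have X0 : ∀ i, 0 < X i := fun i => by positivity
  have vB : ∀ i, volume (B i) = ENNReal.ofReal (2 * ((i.1 + 1) / X i)) := fun i => by
    rw [hB]; simp only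
    rw [vol_band, add_sub_cancel_left, ENNReal.ofReal_one, mul_one]; congr 1; ring
  have fin : ∀ f : ℕ × ℚ × ℚ → Set (ℝ × ℝ),
      (∀ i, volume (f i) ≤ ENNReal.ofReal (1 / 2 ^ Encodable.encode i)) → volume (⋃ i, f i) < ⊤ := by
    intro f hf
    refine ((measure_iUnion_le _).trans (ENNReal.tsum_le_tsum hf)).trans_lt ?_
    have : Summable fun n : ℕ => (1 : ℝ) / 2 ^ n := by simpa using summable_geometric_two
    rw [← ENNReal.ofReal_tsum_of_nonneg (f := fun a : ℕ × ℚ × ℚ => (1 : ℝ) / 2 ^ Encodable.encode a)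
      (fun _ => by positivity) (this.comp_injective Encodable.encode_injective)]
    exact ENNReal.ofReal_lt_top
  refine ⟨(⋃ i, K i) ∪ ⋃ i, B i, (MeasurableSet.iUnion K1).union (MeasurableSet.iUnion fun i =>
    (measurableSet_Icc.preimage (f := fun p : ℝ × ℝ => p.2 - i.2.1 * p.1) (by fun_prop)).inter
      (st_meas _ _)), ?_, measure_union_lt_top (fin K K2) (fin B fun i => ?_), ?_⟩
  · refine lt_of_lt_of_le ?_ (measure_mono ((subset_iUnion B (0, 0, 0)).trans subset_union_right))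
    rw [vB, ENNReal.ofReal_pos]
    have := X0 (0, 0, 0)
    positivity
  · rw [vB]
    refine ENNReal.ofReal_le_ofReal ?_
    rw [hX, mul_div_assoc', div_le_div_iff₀ (by positivity) (by positivity)]
    have : (0 : ℝ) ≤ i.1 := by positivity
    have : (0 : ℝ) < 2 ^ Encodable.encode i := by positivity
    nlinarith [mul_nonneg this.le (mul_self_nonneg (i.1 : ℝ)), mul_nonneg this.le ‹(0 : ℝ) ≤ i.1›]
  · intro s t a b hst ha hb hne
    by_cases h : a s = a t ∧ ∀ r ∈ Icc s t, a r = a s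
    · have hne' : b s ≠ b t := hne.resolve_left (not_not.2 h.1)
      obtain ⟨u, v, uv, sub⟩ : ∃ u v, u < v ∧ Icc u v ⊆ b '' Icc s t := by
        rcases lt_or_gt_of_ne hne' with l | l
        · exact ⟨_, _, l, intermediate_value_Icc hst hb⟩
        · exact ⟨_, _, l, intermediate_value_Icc' hst hb⟩
      obtain ⟨n, hn⟩ := exists_nat_one_div_lt (show 0 < (v - u) / 8 by linarith)
      have z : (0 : ℝ) < 1 / (n + 1) := by positivity
      obtain ⟨α, α1, α2⟩ := exists_rat_btwn (show a s - 1 / (n + 1) < a s by linarith)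
      obtain ⟨β, β1, β2⟩ := exists_rat_btwn (show u < (u + v) / 2 by linarith)
      obtain ⟨c, c1, c2⟩ := K3 (n, α, β) (a s) ⟨α2.le, by simp only; linarith⟩
      obtain ⟨r, hr, rfl⟩ := sub (show c ∈ Icc u v from
        ⟨by linarith [c1.1], by have := c1.2; simp only at this; linarith⟩)
      refine ⟨r, hr, 1, fun x hx => Or.inl (mem_iUnion.2 ⟨(n, α, β), ?_⟩)⟩
      rw [h.2 r hr]
      exact c2 x ⟨hx.1, by linarith [hx.2]⟩
    · obtain ⟨u, hu, v, hv, uv⟩ : ∃ u ∈ Icc s t, ∃ v ∈ Icc s t, a u < a v := by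
        by_contra k
        push Not at k
        have l := left_mem_Icc.2 hst
        exact h ⟨le_antisymm (k _ (right_mem_Icc.2 hst) _ l) (k _ l _ (right_mem_Icc.2 hst)),
          fun r hr => le_antisymm (k _ l _ hr) (k _ hr _ l)⟩
      obtain ⟨R, hR⟩ := isCompact_Icc.exists_bound_of_continuousOn hb
      obtain ⟨q, q1, q2⟩ := exists_rat_btwn uv
      obtain ⟨n, hn⟩ := exists_nat_gt (max R (max (1 / (q - a u)) (1 / (a v - q))))
      simp only [max_lt_iff] at hn
      obtain ⟨n1, n2, n3⟩ := hn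
      rw [div_lt_iff₀ (by linarith)] at n2 n3
      set i : ℕ × ℚ × ℚ := (n, q, 0)
      have n0 : (0 : ℝ) ≤ n := by positivity
      have X1 : ((n : ℝ) + 1) ^ 2 ≤ X i := by
        have : (1 : ℝ) ≤ 2 ^ Encodable.encode i := one_le_pow₀ (by norm_num)
        simp only [hX, i]
        nlinarith [sq_nonneg ((n : ℝ) + 1)]
      have bd : ∀ r ∈ Icc s t, |b r| ≤ n + 1 := fun r hr => by linarith [hR r hr, Real.norm_eq_abs (b r)]
      have c : ContinuousOn (fun r => b r + (a r - q) * X i) (Icc s t) := by fun_prop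
      obtain ⟨r, hr, e⟩ := isPreconnected_Icc.intermediate_value hu hv c (show (0 : ℝ) ∈ _ from
        ⟨by have := (abs_le.1 (bd u hu)).2; nlinarith, by have := (abs_le.1 (bd v hv)).1; nlinarith⟩)
      refine ⟨r, hr, X i, fun x hx => Or.inr (mem_iUnion.2 ⟨i, ?_, hx, trivial⟩)⟩
      have e1 : b r + a r * x - q * x = b r / X i * (X i - x) := by
        have := X0 i
        simp only at e
        field_simp
        linear_combination x * e
      have e2 : |b r / X i * (X i - x)| ≤ (n + 1) / X i := by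
        rw [abs_mul, abs_div, abs_of_pos (X0 i)]
        calc _ ≤ (n + 1) / X i * 1 := by
              gcongr
              · exact bd r hr
              · exact abs_le.2 ⟨by linarith [hx.2], by linarith [hx.1]⟩
          _ = _ := mul_one _
      rw [← e1] at e2
      exact abs_le.1 e2

end Pool.Agent.H.MP_ec7c5f_an
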